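import Mathlib
import Pool.Agent.H66.BP.Targets

open MeasureTheory Set Filter Topology Metric
open scoped Real ENNReal NNReal ComplexConjugate ContDiff

namespace Pool.Agent.H39.BP.BAS

open Pool.Agent.H66.BP

/-- the exponential -/
noncomputable def ef (z : ℂ × ℂ) (y : E) : ℂ :=
  Complex.exp (z.1 * ((y 0 : ℝ) : ℂ) + z.2 * ((y 1 : ℝ) : ℂ))

theorem cont_ef (z : ℂ × ℂ) : Continuous (ef z) := by
  unfold ef
  have h0 : Continuous fun y : E => y 0 := by fun_prop
  have h1 : Continuous fun y : E => y 1 := by fun_prop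
  exact Complex.continuous_exp.comp ((continuous_const.mul (Complex.continuous_ofReal.comp h0)).add
    (continuous_const.mul (Complex.continuous_ofReal.comp h1)))

theorem coord_le (y : E) (i : Fin 2) : |y i| ≤ ‖y‖ := by
  have := PiLp.norm_apply_le y i
  simpa using this

theorem norm_ef (z : ℂ × ℂ) (y : E) : ‖ef z y‖ = Real.exp (z.1.re * y 0 + z.2.re * y 1) := by
  unfold ef
  rw [Complex.norm_exp]
  congr 1
  simp [Complex.add_re, Complex.mul_re]

theorem norm_ef_le (z : ℂ × ℂ) (y : E) {R : ℝ} (hy : ‖y‖ ≤ R) {M : ℝ} (hz : ‖z‖ ≤ M) :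
    ‖ef z y‖ ≤ Real.exp (2 * M * R) := by
  rw [norm_ef]
  refine Real.exp_le_exp.2 ?_
  have hR : 0 ≤ R := (norm_nonneg y).trans hy
  have hM : 0 ≤ M := (norm_nonneg z).trans hz
  have h1 : |z.1.re| ≤ M := (Complex.abs_re_le_norm _).trans ((norm_fst_le z).trans hz)
  have h2 : |z.2.re| ≤ M := (Complex.abs_re_le_norm _).trans ((norm_snd_le z).trans hz)
  have h3 : |y 0| ≤ R := (coord_le y 0).trans hy
  have h4 : |y 1| ≤ R := (coord_le y 1).trans hy
  have h5 : z.1.re * y 0 ≤ M * R := by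
    refine (le_abs_self _).trans ?_
    rw [abs_mul]
    exact mul_le_mul h1 h3 (abs_nonneg _) hM
  have h6 : z.2.re * y 1 ≤ M * R := by
    refine (le_abs_self _).trans ?_
    rw [abs_mul]
    exact mul_le_mul h2 h4 (abs_nonneg _) hM
  linarith

/-- the derivative -/
noncomputable def ed (z : ℂ × ℂ) (y : E) : ℂ × ℂ →L[ℂ] ℂ :=
  ef z y • (((y 0 : ℝ) : ℂ) • ContinuousLinearMap.fst ℂ ℂ ℂ +
    ((y 1 : ℝ) : ℂ) • ContinuousLinearMap.snd ℂ ℂ ℂ)

theorem hasFDerivAt_ef (z : ℂ × ℂ) (y : E) : HasFDerivAt (fun z => ef z y) (ed z y) z := by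
  unfold ef ed
  have h1 : HasFDerivAt (fun z : ℂ × ℂ => z.1) (ContinuousLinearMap.fst ℂ ℂ ℂ) z := hasFDerivAt_fst
  have h2 : HasFDerivAt (fun z : ℂ × ℂ => z.2) (ContinuousLinearMap.snd ℂ ℂ ℂ) z := hasFDerivAt_snd
  have h3 := (((h1.mul_const ((y 0 : ℝ) : ℂ)).add (h2.mul_const ((y 1 : ℝ) : ℂ)))).cexp
  exact h3

theorem norm_ed_le (z : ℂ × ℂ) (y : E) {R : ℝ} (hy : ‖y‖ ≤ R) {M : ℝ} (hz : ‖z‖ ≤ M) :
    ‖ed z y‖ ≤ Real.exp (2 * M * R) * (2 * R) := by
  unfold ed
  rw [norm_smul]
  refine mul_le_mul (norm_ef_le z y hy hz) ?_ (norm_nonneg _) (Real.exp_pos _).le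
  refine (norm_add_le _ _).trans ?_
  rw [norm_smul, norm_smul, Complex.norm_real, Complex.norm_real]
  have h1 := ContinuousLinearMap.norm_fst_le ℂ ℂ ℂ
  have h2 := ContinuousLinearMap.norm_snd_le ℂ ℂ ℂ
  have h3 : ‖y 0‖ ≤ R := (coord_le y 0).trans hy
  have h4 : ‖y 1‖ ≤ R := (coord_le y 1).trans hy
  have hR : 0 ≤ R := (norm_nonneg y).trans hy
  have h5 := mul_le_mul h3 h1 (norm_nonneg _) hR
  have h6 := mul_le_mul h4 h2 (norm_nonneg _) hR
  linarith

theorem cont_ed (z : ℂ × ℂ) : Continuous (ed z) := by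
  unfold ed
  have h0 : Continuous fun y : E => y 0 := by fun_prop
  have h1 : Continuous fun y : E => y 1 := by fun_prop
  exact (cont_ef z).smul (((Complex.continuous_ofReal.comp h0).smul continuous_const).add
    ((Complex.continuous_ofReal.comp h1).smul continuous_const))

theorem one_le_al (f : ℝ → ℝ) (x : ℝ) : 1 ≤ al f x := by
  unfold al
  rw [Real.one_le_sqrt]
  have := sq_nonneg (rd f x)
  linarith

theorem F_zero_pos (hALI : T_ALI) (S : Strip) : 0 < (S.F 0).re := by
  have hT := (hALI S.a S.b S.T S.hab (Or.inr S.concT) S.contT).1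
  have hB := (hALI S.a S.b S.B S.hab (Or.inl S.convB) S.contB).1
  have h1 : S.F 0 = (((∫ x in S.a..S.b, al S.T x) + (∫ x in S.a..S.b, al S.B x) +
      (S.T S.a - S.B S.a) + (S.T S.b - S.B S.b) : ℝ) : ℂ) := by
    unfold Strip.F
    simp only [Prod.fst_zero, Prod.snd_zero, zero_mul, add_zero, Complex.exp_zero, one_mul,
      intervalIntegral.integral_ofReal, intervalIntegral.integral_const]
    push_cast
    simp
  rw [h1, Complex.ofReal_re]
  have h2 : S.b - S.a ≤ ∫ x in S.a..S.b, al S.T x := by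
    have := intervalIntegral.integral_mono_on (f := fun _ => (1:ℝ)) S.hab.le
      intervalIntegrable_const hT (fun x _ => one_le_al S.T x)
    simpa using this
  have h3 : S.b - S.a ≤ ∫ x in S.a..S.b, al S.B x := by
    have := intervalIntegral.integral_mono_on (f := fun _ => (1:ℝ)) S.hab.le
      intervalIntegrable_const hB (fun x _ => one_le_al S.B x)
    simpa using this
  have h4 := S.le S.a ⟨le_rfl, S.hab.le⟩
  have h5 := S.le S.b ⟨S.hab.le, le_rfl⟩
  have h6 := S.hab
  linarith

theorem bas (hSTRIP : T_STRIP) (hREP : T_REP) (hALI : T_ALI) : T_BAS := by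
  intro K hK
  obtain ⟨S, hS⟩ := hSTRIP K hK
  obtain ⟨hfin, hF⟩ := hREP S
  rw [hS] at hfin hF
  have : IsFiniteMeasure (bdm K) := ⟨hfin⟩
  have hfr : frontier K ⊆ K := hK.compact.isClosed.frontier_subset
  have hae : ∀ᵐ y ∂(bdm K), y ∈ K := by
    unfold bdm
    filter_upwards [ae_restrict_mem isClosed_frontier.measurableSet] with y hy using hfr hy
  obtain ⟨R, hR⟩ := hK.compact.isBounded.exists_norm_le
  have hint : ∀ z, Integrable (ef z) (bdm K) := by
    intro z
    refine Integrable.of_bound (cont_ef z).aestronglyMeasurable (Real.exp (2 * ‖z‖ * R)) ?_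
    filter_upwards [hae] with y hy
    exact norm_ef_le z y (hR y hy) le_rfl
  have hFK : ∀ z, FK K z = ∫ y, ef z y ∂(bdm K) := fun z => rfl
  have h0 : FK K 0 = (((bdm K).real univ : ℝ) : ℂ) := by
    rw [hFK]
    have : ∀ y, ef 0 y = 1 := by
      intro y
      unfold ef
      simp
    simp only [this]
    simp
  have hre : (FK K 0).re = (bdm K).real univ := by rw [h0, Complex.ofReal_re]
  refine ⟨?_, ?_, ?_, ?_, ?_, ?_⟩
  · intro z
    have h1 := hasFDerivAt_integral_of_dominated_of_fderiv_le (𝕜 := ℂ) (μ := bdm K)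
      (F := fun z y => ef z y) (F' := fun z y => ed z y) (x₀ := z)
      (bound := fun _ => Real.exp (2 * (‖z‖ + 1) * R) * (2 * R)) (s := ball z 1)
      (ball_mem_nhds z one_pos)
      (Eventually.of_forall fun z => (cont_ef z).aestronglyMeasurable) (hint z)
      (cont_ed z).aestronglyMeasurable ?_ (integrable_const _) ?_
    · exact h1.differentiableAt
    · filter_upwards [hae] with y hy x hx
      refine norm_ed_le x y (hR y hy) ?_
      have h2 := norm_le_norm_add_norm_sub' x z
      rw [mem_ball, dist_eq_norm] at hx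
      linarith
    · exact ae_of_all _ fun y x _ => hasFDerivAt_ef x y
  · rw [hF 0]
    exact F_zero_pos hALI S
  · rw [h0, Complex.ofReal_im]
  · rw [hre, measureReal_def, ENNReal.ofReal_toReal hfin.ne]
  · intro z
    rw [hre, hFK]
    refine (norm_integral_le_integral_norm _).trans ?_
    have hbd : BddAbove ((fun y : E => z.1.re * y 0 + z.2.re * y 1) '' K) := by
      refine (hK.compact.image ?_).bddAbove
      have h0 : Continuous fun y : E => y 0 := by fun_prop
      have h1 : Continuous fun y : E => y 1 := by fun_prop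
      exact (continuous_const.mul h0).add (continuous_const.mul h1)
    have h2 : ∫ y, ‖ef z y‖ ∂(bdm K) ≤
        ∫ _, Real.exp (Pool.Agent.H66.BP.hK K (z.1.re, z.2.re)) ∂(bdm K) := by
      refine integral_mono_ae (hint z).norm (integrable_const _) ?_
      filter_upwards [hae] with y hy
      rw [norm_ef]
      exact Real.exp_le_exp.2 (le_csSup hbd ⟨y, hy, rfl⟩)
    refine h2.trans (le_of_eq ?_)
    rw [integral_const, smul_eq_mul]
  · intro z
    rw [hFK, hFK, ← integral_conj]
    refine integral_congr_ae (ae_of_all _ fun y => ?_)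
    unfold ef
    dsimp only
    rw [← Complex.exp_conj]
    simp

end Pool.Agent.H39.BP.BAS
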