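import Mathlib
import Pool.Agent.H66.BP.Targets

open MeasureTheory Set Filter Topology Metric
open scoped Real ENNReal NNReal ComplexConjugate ContDiff

namespace Pool.Agent.H39.BP.FAR

open Pool.Agent.H66.BP

theorem ae_Ioo {α β : ℝ} (h : α ≤ β) {P : ℝ → Prop} (hP : ∀ x ∈ Ioo α β, P x) :
    ∀ᵐ x ∂volume, x ∈ uIoc α β → P x := by
  have h1 : ∀ᵐ x ∂(volume : Measure ℝ), x ≠ β := by
    rw [ae_iff]
    simp
  filter_upwards [h1] with x hx hx2
  rw [uIoc_of_le h] at hx2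
  exact hP x ⟨hx2.1, lt_of_le_of_ne hx2.2 hx⟩

theorem sqrt_bounds (q w : ℝ) : 0 ≤ Real.sqrt (1 + (q + w) ^ 2) - q + |w| ∧
    (0 ≤ q → Real.sqrt (1 + (q + w) ^ 2) - q + |w| ≤ 1 + 2 * |w|) := by
  constructor
  · have h1 : |q + w| ≤ Real.sqrt (1 + (q + w) ^ 2) := by
      rw [← Real.sqrt_sq_eq_abs]
      exact Real.sqrt_le_sqrt (by linarith)
    have h2 : q - |w| ≤ |q + w| := by
      have h3 := le_abs_self (q + w)
      have h4 := neg_abs_le w
      linarith
    linarith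
  · intro hq
    have h1 : Real.sqrt (1 + (q + w) ^ 2) ≤ 1 + |q + w| := by
      rw [Real.sqrt_le_left (by positivity)]
      have := abs_nonneg (q + w)
      nlinarith [sq_abs (q + w)]
    have h2 : |q + w| ≤ q + |w| := by
      have := abs_add_le q w
      rwa [abs_of_nonneg hq] at this
    linarith

theorem sqrt_sub_antitone (w : ℝ) : Antitone fun q : ℝ => Real.sqrt (1 + (q + w) ^ 2) - q := by
  intro q q' h
  dsimp only
  have h1 : Real.sqrt (1 + (q' + w) ^ 2) ≤ Real.sqrt (1 + (q + w) ^ 2) + (q' - q) := by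
    have h0 : 0 ≤ Real.sqrt (1 + (q + w) ^ 2) := Real.sqrt_nonneg _
    rw [Real.sqrt_le_left (by linarith)]
    have h2 := Real.sq_sqrt (show 0 ≤ 1 + (q + w) ^ 2 by positivity)
    have h3 : q + w ≤ Real.sqrt (1 + (q + w) ^ 2) := by
      refine (le_abs_self _).trans ?_
      rw [← Real.sqrt_sq_eq_abs]
      exact Real.sqrt_le_sqrt (by linarith)
    nlinarith
  linarith

theorem g1_antitone (w : ℝ) :
    AntitoneOn (fun q : ℝ => (Real.sqrt (1 + (q + w) ^ 2) - q + |w|) / q) (Ioi 0) := by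
  intro q hq q' hq' h
  dsimp only
  have hq0 : (0:ℝ) < q := hq
  have h1 : Real.sqrt (1 + (q' + w) ^ 2) - q' ≤ Real.sqrt (1 + (q + w) ^ 2) - q :=
    sqrt_sub_antitone w h
  exact div_le_div₀ (sqrt_bounds q w).1 (by linarith) hq0 h

theorem g2_antitone (w : ℝ) : AntitoneOn (fun q : ℝ => |w| / q) (Ioi 0) := by
  intro q hq q' hq' h
  exact div_le_div_of_nonneg_left (abs_nonneg w) hq h

theorem comp_mono {α β : ℝ} {q : ℝ → ℝ} (hq : ∀ x ∈ Ioo α β, 0 < q x)
    (hm : MonotoneOn q (Ioo α β) ∨ AntitoneOn q (Ioo α β)) {g : ℝ → ℝ} (hg : AntitoneOn g (Ioi 0)) :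
    MonotoneOn (fun x => g (q x)) (Ioo α β) ∨ AntitoneOn (fun x => g (q x)) (Ioo α β) := by
  rcases hm with hm | hm
  · right
    intro x hx y hy hxy
    exact hg (hq x hx) (hq y hy) (hm hx hy hxy)
  · left
    intro x hx y hy hxy
    exact hg (hq y hy) (hq x hx) (hm hx hy hxy)

theorem integrable_mul_mono {α β : ℝ} (h : α ≤ β) {φ : ℝ → ℂ} {g : ℝ → ℝ} {M : ℝ}
    (hφ : IntervalIntegrable φ volume α β)
    (hg : MonotoneOn g (Ioo α β) ∨ AntitoneOn g (Ioo α β)) (hb : ∀ x ∈ Ioo α β, 0 ≤ g x ∧ g x ≤ M) :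
    IntervalIntegrable (fun x => φ x * (g x : ℂ)) volume α β := by
  rw [intervalIntegrable_iff_integrableOn_Ioo_of_le h] at hφ ⊢
  have hm : AEMeasurable g (volume.restrict (Ioo α β)) := by
    rcases hg with hg | hg
    · exact aemeasurable_restrict_of_monotoneOn measurableSet_Ioo hg
    · exact aemeasurable_restrict_of_antitoneOn measurableSet_Ioo hg
  have hm2 : AEStronglyMeasurable (fun x => (g x : ℂ)) (volume.restrict (Ioo α β)) :=
    (Complex.measurable_ofReal.comp_aemeasurable hm).aestronglyMeasurable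
  refine (hφ.norm.mul_const M).mono' (hφ.1.mul hm2) ?_
  filter_upwards [ae_restrict_mem measurableSet_Ioo] with x hx
  rw [norm_mul, Complex.norm_real, Real.norm_of_nonneg (hb x hx).1]
  exact mul_le_mul_of_nonneg_left (hb x hx).2 (norm_nonneg _)

/-- the case of a positive derivative up to a sign -/
theorem far_aux (hLC : T_LC) (α β δ w : ℝ) (Ψ q : ℝ → ℝ) (l : ℂ) (sg : ℝ) (hsg : sg = 1 ∨ sg = -1)
    (h : α ≤ β) (hδ : 0 < δ) (hδ1 : δ ≤ 1) (hΨ : ContinuousOn Ψ (Icc α β))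
    (hΨ0 : ∀ x ∈ Icc α β, 0 ≤ Ψ x)
    (hd : ∀ x ∈ Ioo α β, HasDerivWithinAt Ψ (sg * q x) (Ioi x) x)
    (hm : MonotoneOn q (Ioo α β) ∨ AntitoneOn q (Ioo α β)) (hq : ∀ x ∈ Ioo α β, δ ≤ q x)
    (hl : 0 ≤ l.re) (hl0 : l ≠ 0) :
    ‖∫ x in α..β, Complex.exp (-(l * (Ψ x : ℂ))) * (Real.sqrt (1 + (q x + w) ^ 2) : ℂ)‖ ≤
      2 / ‖l‖ * ((2 + 3 * |w|) / δ) := by
  have hln : 0 < ‖l‖ := norm_pos_iff.2 hl0
  have hsg2 : sg * sg = 1 := by rcases hsg with rfl | rfl <;> norm_num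
  have hq0 : ∀ x ∈ Ioo α β, 0 < q x := fun x hx => hδ.trans_le (hq x hx)
  -- `q` is integrable
  have hqi : IntegrableOn q (Ioc α β) := by
    refine intervalIntegral.integrableOn_deriv_right_of_nonneg
      (g := fun x => sg * Ψ x) (hΨ.const_smul sg |>.congr fun x _ => by simp) ?_
      fun x hx => (hq0 x hx).le
    intro x hx
    have h1 := (hd x hx).const_mul sg
    rw [← mul_assoc, hsg2, one_mul] at h1
    exact h1
  have hFc : ContinuousOn (fun x => Complex.exp (-(l * (Ψ x : ℂ)))) (Icc α β) := by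
    refine Complex.continuous_exp.comp_continuousOn ?_
    exact (continuousOn_const.mul (Complex.continuous_ofReal.comp_continuousOn hΨ)).neg
  have hFn : ∀ x ∈ Icc α β, ‖Complex.exp (-(l * (Ψ x : ℂ)))‖ ≤ 1 := by
    intro x hx
    rw [Complex.norm_exp, Real.exp_le_one_iff]
    simp only [Complex.neg_re, Complex.mul_re, Complex.ofReal_re, Complex.ofReal_im, mul_zero,
      sub_zero]
    have := mul_nonneg hl (hΨ0 x hx)
    linarith
  set φ : ℝ → ℂ := fun x => Complex.exp (-(l * (Ψ x : ℂ))) * (q x : ℂ) with hφdef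
  have hφi : IntervalIntegrable φ volume α β := by
    rw [intervalIntegrable_iff_integrableOn_Ioc_of_le h]
    have h1 : IntegrableOn (fun x => (q x : ℂ)) (Ioc α β) := hqi.ofReal
    have h2 : AEStronglyMeasurable (fun x => Complex.exp (-(l * (Ψ x : ℂ))))
        (volume.restrict (Ioc α β)) :=
      (hFc.mono Ioc_subset_Icc_self).aestronglyMeasurable measurableSet_Ioc
    refine h1.norm.mono' (h2.mul h1.1) ?_
    filter_upwards [ae_restrict_mem measurableSet_Ioc] with x hx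
    rw [norm_mul]
    have := mul_le_mul_of_nonneg_right (hFn x (Ioc_subset_Icc_self hx)) (norm_nonneg (q x : ℂ))
    rwa [one_mul] at this
  have hA : ∀ x ∈ Icc α β, ∀ y ∈ Icc α β, x ≤ y → ‖∫ u in x..y, φ u‖ ≤ 2 / ‖l‖ := by
    intro x hx y hy hxy
    have h1 : ∫ u in x..y, (-(l * sg)) * φ u =
        Complex.exp (-(l * (Ψ y : ℂ))) - Complex.exp (-(l * (Ψ x : ℂ))) := by
      refine intervalIntegral.integral_eq_sub_of_hasDeriv_right_of_le hxy
        (hFc.mono (Icc_subset_Icc hx.1 hy.2)) ?_ ?_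
      · intro u hu
        have hu' : u ∈ Ioo α β := ⟨hx.1.trans_lt hu.1, hu.2.trans_le hy.2⟩
        have h2 : HasDerivWithinAt (fun x => (Ψ x : ℂ)) ((sg * q u : ℝ) : ℂ) (Ioi u) u :=
          (hd u hu').ofReal_comp
        have h3 := ((h2.const_mul l).neg).cexp
        refine h3.congr_deriv ?_
        rw [hφdef]
        simp only [Pi.neg_apply]
        push_cast
        ring
      · refine (IntervalIntegrable.mono_set hφi ?_).const_mul _
        rw [uIcc_of_le hxy, uIcc_of_le h]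
        exact Icc_subset_Icc hx.1 hy.2
    rw [intervalIntegral.integral_const_mul] at h1
    have h4 : ‖-(l * (sg:ℂ))‖ = ‖l‖ := by
      rw [norm_neg, norm_mul, Complex.norm_real]
      rcases hsg with rfl | rfl <;> simp
    have h5 : ‖l‖ * ‖∫ u in x..y, φ u‖ ≤ 2 := by
      rw [← h4, ← norm_mul, h1]
      refine (norm_sub_le _ _).trans ?_
      have h6 := hFn y hy
      have h7 := hFn x hx
      linarith
    rw [le_div_iff₀ hln]
    linarith
  -- the three pieces
  have e1 := hLC α β 1 (2 / ‖l‖) φ (fun _ => 1) h zero_le_one hφi hA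
    (Or.inl fun x _ y _ _ => le_rfl) (fun x _ => ⟨zero_le_one, le_rfl⟩)
  have hm1 := comp_mono hq0 hm (g1_antitone w)
  have hm2 := comp_mono hq0 hm (g2_antitone w)
  have hb1 : ∀ x ∈ Ioo α β, 0 ≤ (Real.sqrt (1 + (q x + w) ^ 2) - q x + |w|) / q x ∧
      (Real.sqrt (1 + (q x + w) ^ 2) - q x + |w|) / q x ≤ (1 + 2 * |w|) / δ := by
    intro x hx
    have h1 := sqrt_bounds (q x) w
    exact ⟨div_nonneg h1.1 (hq0 x hx).le,
      div_le_div₀ (by positivity) (h1.2 (hq0 x hx).le) hδ (hq x hx)⟩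
  have hb2 : ∀ x ∈ Ioo α β, 0 ≤ |w| / q x ∧ |w| / q x ≤ |w| / δ := by
    intro x hx
    exact ⟨div_nonneg (abs_nonneg w) (hq0 x hx).le,
      div_le_div_of_nonneg_left (abs_nonneg w) hδ (hq x hx)⟩
  have e2 := hLC α β _ (2 / ‖l‖) φ _ h (by positivity) hφi hA hm1 hb1
  have e3 := hLC α β _ (2 / ‖l‖) φ _ h (by positivity) hφi hA hm2 hb2
  have i2 := integrable_mul_mono h hφi hm1 hb1
  have i3 := integrable_mul_mono h hφi hm2 hb2
  have hsplit : ∫ x in α..β, Complex.exp (-(l * (Ψ x : ℂ))) * (Real.sqrt (1 + (q x + w) ^ 2) : ℂ) =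
      (∫ x in α..β, φ x * ((1:ℝ) : ℂ)) +
      (∫ x in α..β, φ x * (((Real.sqrt (1 + (q x + w) ^ 2) - q x + |w|) / q x : ℝ) : ℂ)) -
      ∫ x in α..β, φ x * ((|w| / q x : ℝ) : ℂ) := by
    have i1 : IntervalIntegrable (fun x => φ x * ((1:ℝ) : ℂ)) volume α β := by
      simpa using hφi
    rw [← intervalIntegral.integral_add i1 i2, ← intervalIntegral.integral_sub (i1.add i2) i3]
    refine intervalIntegral.integral_congr_ae (ae_Ioo h fun x hx => ?_)
    have hqx : (q x : ℂ) ≠ 0 := by exact_mod_cast (hq0 x hx).ne'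
    rw [hφdef]
    push_cast
    field_simp
    ring
  rw [hsplit]
  refine (norm_sub_le _ _).trans ((add_le_add (norm_add_le _ _) le_rfl).trans ?_)
  refine (add_le_add (add_le_add e1 e2) e3).trans ?_
  have h8 : 1 * (2 / ‖l‖) + (1 + 2 * |w|) / δ * (2 / ‖l‖) + |w| / δ * (2 / ‖l‖) =
      2 / ‖l‖ * ((δ + (1 + 2 * |w|) + |w|) / δ) := by
    field_simp
  rw [h8]
  refine mul_le_mul_of_nonneg_left ?_ (by positivity)
  exact div_le_div_of_nonneg_right (by linarith) hδ.le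

theorem far (hLC : T_LC) : T_FAR := by
  intro α β δ w Ψ p l h hδ hδ1 hΨ hΨ0 hd hm hp hl hl0
  rcases hp with hp | hp
  · refine far_aux hLC α β δ w Ψ p l 1 (Or.inl rfl) h hδ hδ1 hΨ hΨ0 ?_ hm hp hl hl0
    intro x hx
    rw [one_mul]
    exact hd x hx
  · have h1 := far_aux hLC α β δ (-w) Ψ (fun x => - p x) l (-1) (Or.inr rfl) h hδ hδ1 hΨ hΨ0 (by
      intro x hx
      have : -1 * -p x = p x := by ring
      rw [this]
      exact hd x hx) (by
      rcases hm with hm | hm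
      · exact Or.inr hm.neg
      · exact Or.inl hm.neg) (fun x hx => by have := hp x hx; linarith) hl hl0
    rw [abs_neg] at h1
    have h2 : ∀ x, (-p x + -w) ^ 2 = (p x + w) ^ 2 := fun x => by ring
    simp only [h2] at h1
    exact h1

end Pool.Agent.H39.BP.FAR
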