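import Mathlib
import Pool.Agent.H66.BP.Targets

open MeasureTheory Set Filter Topology Metric
open scoped Real ENNReal NNReal ComplexConjugate ContDiff

namespace Pool.Agent.H39.BP.WIN

open Pool.Agent.H66.BP

theorem ae_Ioo {α β : ℝ} (h : α ≤ β) {P : ℝ → Prop} (hP : ∀ x ∈ Ioo α β, P x) :
    ∀ᵐ x ∂volume, x ∈ uIoc α β → P x := by
  have h1 : ∀ᵐ x ∂(volume : Measure ℝ), x ≠ β := by
    rw [ae_iff]
    simp
  filter_upwards [h1] with x hx hx2
  rw [uIoc_of_le h] at hx2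
  exact hP x ⟨hx2.1, lt_of_le_of_ne hx2.2 hx⟩

theorem convex_hasDeriv {a b : ℝ} {ψ : ℝ → ℝ} (h : ConvexOn ℝ (Icc a b) ψ) {x : ℝ}
    (hx : x ∈ Ioo a b) : HasDerivWithinAt ψ (rd ψ x) (Ioi x) x := by
  have hx' : x ∈ interior (Icc a b) := by rw [interior_Icc]; exact hx
  exact (h.differentiableWithinAt_Ioi_of_mem_interior hx').hasDerivWithinAt

theorem uniq (x : ℝ) : UniqueDiffWithinAt ℝ (Ioi x) x := uniqueDiffWithinAt_Ioi x

/-- relation of right derivatives: `ψ = c - T - w x` -/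
theorem rd_top {a b c w : ℝ} {T : ℝ → ℝ} (h : ConvexOn ℝ (Icc a b) (fun x => c - T x - w * x))
    {x : ℝ} (hx : x ∈ Ioo a b) : rd (fun x => c - T x - w * x) x = - rd T x - w := by
  have h1 := convex_hasDeriv h hx
  have h2 : HasDerivWithinAt (fun x => c - (c - T x - w * x) - w * x)
      (0 - rd (fun x => c - T x - w * x) x - w * 1) (Ioi x) x :=
    ((hasDerivWithinAt_const x _ c).sub h1).sub ((hasDerivWithinAt_id x _).const_mul w)
  have h3 : (fun x => c - (c - T x - w * x) - w * x) = T := by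
    funext x
    ring
  rw [h3] at h2
  have h4 : rd T x = 0 - rd (fun x => c - T x - w * x) x - w * 1 := h2.derivWithin (uniq x)
  linarith

/-- relation of right derivatives: `χ = B + w x - c` -/
theorem rd_bot {a b c w : ℝ} {B : ℝ → ℝ} (h : ConvexOn ℝ (Icc a b) (fun x => B x + w * x - c))
    {x : ℝ} (hx : x ∈ Ioo a b) : rd (fun x => B x + w * x - c) x = rd B x + w := by
  have h1 := convex_hasDeriv h hx
  have h2 : HasDerivWithinAt (fun x => (B x + w * x - c) - w * x + c)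
      (rd (fun x => B x + w * x - c) x - w * 1) (Ioi x) x :=
    (h1.sub ((hasDerivWithinAt_id x _).const_mul w)).add_const c
  have h3 : (fun x => (B x + w * x - c) - w * x + c) = B := by
    funext x
    ring
  rw [h3] at h2
  have h4 : rd B x = rd (fun x => B x + w * x - c) x - w * 1 := h2.derivWithin (uniq x)
  linarith

theorem convex_top (S : Strip) (c w : ℝ) :
    ConvexOn ℝ (Icc S.a S.b) (fun x => c - S.T x - w * x) := by
  refine ⟨convex_Icc _ _, fun x hx y hy p q hp hq hpq => ?_⟩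
  have := S.concT.2 hx hy hp hq hpq
  simp only [smul_eq_mul] at this ⊢
  have e : p * (c - S.T x - w * x) + q * (c - S.T y - w * y) =
      (p + q) * c - (p * S.T x + q * S.T y) - w * (p * x + q * y) := by ring
  rw [e, hpq]
  linarith

theorem convex_bot (S : Strip) (c w : ℝ) :
    ConvexOn ℝ (Icc S.a S.b) (fun x => S.B x + w * x - c) := by
  refine ⟨convex_Icc _ _, fun x hx y hy p q hp hq hpq => ?_⟩
  have := S.convB.2 hx hy hp hq hpq
  simp only [smul_eq_mul] at this ⊢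
  have e : p * (S.B x + w * x - c) + q * (S.B y + w * y - c) =
      (p * S.B x + q * S.B y) + w * (p * x + q * y) - (p + q) * c := by ring
  rw [e, hpq]
  linarith

theorem hT_spec (S : Strip) (w : ℝ) : (∀ x ∈ Icc S.a S.b, S.T x + w * x ≤ S.hT w) ∧
    ∃ x ∈ Icc S.a S.b, S.T x + w * x = S.hT w := by
  have hc : ContinuousOn (fun x => S.T x + w * x) (Icc S.a S.b) :=
    S.contT.add (continuousOn_const.mul continuousOn_id)
  have hne : (Icc S.a S.b).Nonempty := nonempty_Icc.2 S.hab.le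
  obtain ⟨x, hx, hmax⟩ := isCompact_Icc.exists_isMaxOn hne hc
  have h1 : IsGreatest ((fun x => S.T x + w * x) '' Icc S.a S.b) (S.T x + w * x) := by
    refine ⟨⟨x, hx, rfl⟩, ?_⟩
    rintro _ ⟨y, hy, rfl⟩
    exact hmax hy
  have h2 : S.hT w = S.T x + w * x := h1.csSup_eq
  refine ⟨fun y hy => ?_, x, hx, h2.symm⟩
  rw [h2]
  exact hmax hy

theorem gB_spec (S : Strip) (w : ℝ) : (∀ x ∈ Icc S.a S.b, S.gB w ≤ S.B x + w * x) ∧
    ∃ x ∈ Icc S.a S.b, S.B x + w * x = S.gB w := by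
  have hc : ContinuousOn (fun x => S.B x + w * x) (Icc S.a S.b) :=
    S.contB.add (continuousOn_const.mul continuousOn_id)
  have hne : (Icc S.a S.b).Nonempty := nonempty_Icc.2 S.hab.le
  obtain ⟨x, hx, hmin⟩ := isCompact_Icc.exists_isMinOn hne hc
  have h1 : IsLeast ((fun x => S.B x + w * x) '' Icc S.a S.b) (S.B x + w * x) := by
    refine ⟨⟨x, hx, rfl⟩, ?_⟩
    rintro _ ⟨y, hy, rfl⟩
    exact hmin hy
  have h2 : S.gB w = S.B x + w * x := h1.csInf_eq
  refine ⟨fun y hy => ?_, x, hx, h2.symm⟩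
  rw [h2]
  exact hmin hy

/-- distribution of slopes -/
theorem vol_le {a b w r V : ℝ} {s g : ℝ → ℝ} (hs : ∀ x ∈ Ioo a b, |g x| = |s x - w|)
    (hm : AEMeasurable s (volume.restrict (Ioo a b))) (hV : 0 ≤ V)
    (h : (((volume.restrict (Ioo a b)).map s) (ball w r)).toReal ≤ V) :
    volume {x | x ∈ Ioo a b ∧ |g x| < r} ≤ ENNReal.ofReal V := by
  have h1 : ((volume.restrict (Ioo a b)).map s) (ball w r) = volume (s ⁻¹' (ball w r) ∩ Ioo a b) := by
    rw [Measure.map_apply_of_aemeasurable hm measurableSet_ball,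
      Measure.restrict_apply' measurableSet_Ioo]
  have h2 : {x | x ∈ Ioo a b ∧ |g x| < r} ⊆ s ⁻¹' (ball w r) ∩ Ioo a b := by
    rintro x ⟨hx, hx2⟩
    refine ⟨?_, hx⟩
    rw [mem_preimage, mem_ball, Real.dist_eq, ← hs x hx]
    exact hx2
  refine (measure_mono h2).trans ?_
  rw [← h1]
  have h3 : ((volume.restrict (Ioo a b)).map s) (ball w r) ≠ ⊤ := by
    rw [h1]
    refine ne_top_of_le_ne_top ?_ (measure_mono inter_subset_right)
    simp
  exact (ENNReal.le_ofReal_iff_toReal_le h3 hV).2 h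

theorem aem_of_mono {a b : ℝ} {s : ℝ → ℝ} (h : MonotoneOn s (Ioo a b)) :
    AEMeasurable s (volume.restrict (Ioo a b)) :=
  aemeasurable_restrict_of_monotoneOn measurableSet_Ioo h

theorem sT_mono (S : Strip) : MonotoneOn S.sT (Ioo S.a S.b) := by
  have h := (convex_top S 0 0).monotoneOn_rightDeriv
  rw [interior_Icc] at h
  intro x hx y hy hxy
  have h1 : rd (fun x => (0:ℝ) - S.T x - 0 * x) x ≤ rd (fun x => (0:ℝ) - S.T x - 0 * x) y :=
    h hx hy hxy
  rw [rd_top (convex_top S 0 0) hx, rd_top (convex_top S 0 0) hy] at h1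
  unfold Strip.sT
  linarith

theorem sB_anti (S : Strip) : AntitoneOn S.sB (Ioo S.a S.b) := by
  have h := (convex_bot S 0 0).monotoneOn_rightDeriv
  rw [interior_Icc] at h
  intro x hx y hy hxy
  have h1 : rd (fun x => S.B x + 0 * x - 0) x ≤ rd (fun x => S.B x + 0 * x - 0) y :=
    h hx hy hxy
  rw [rd_bot (convex_bot S 0 0) hx, rd_bot (convex_bot S 0 0) hy] at h1
  unfold Strip.sB
  linarith

/-- the side integrals -/
theorem side {p q : ℝ} (hpq : p ≤ q) (l c : ℂ) (hl : l ≠ 0)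
    (h : ∀ y ∈ Icc p q, (l * (y : ℂ) + c).re ≤ 0) :
    ‖∫ y in p..q, Complex.exp (l * (y : ℂ) + c)‖ ≤ 2 / ‖l‖ := by
  have hln : 0 < ‖l‖ := norm_pos_iff.2 hl
  have h1 : ∫ y in p..q, Complex.exp (l * (y : ℂ) + c) =
      Complex.exp (l * (q : ℂ) + c) / l - Complex.exp (l * (p : ℂ) + c) / l := by
    refine intervalIntegral.integral_eq_sub_of_hasDerivAt (f := fun y : ℝ =>
      Complex.exp (l * (y : ℂ) + c) / l) (fun y _ => ?_) ?_
    · have h2 : HasDerivAt (fun y : ℝ => (y : ℂ)) 1 y := Complex.ofRealCLM.hasDerivAt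
      have h3 := (((h2.const_mul l).add_const c).cexp).div_const l
      refine h3.congr_deriv ?_
      field_simp
    · refine Continuous.intervalIntegrable ?_ _ _
      fun_prop
  rw [h1, ← sub_div, norm_div]
  refine div_le_div_of_nonneg_right ?_ hln.le
  refine (norm_sub_le _ _).trans ?_
  have h4 : ∀ y ∈ Icc p q, ‖Complex.exp (l * (y : ℂ) + c)‖ ≤ 1 := by
    intro y hy
    rw [Complex.norm_exp, Real.exp_le_one_iff]
    exact h y hy
  have h5 := h4 q ⟨hpq, le_rfl⟩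
  have h6 := h4 p ⟨le_rfl, hpq⟩
  linarith

/-- the threshold -/
theorem exists_thr (A : ℝ) : ∃ τ₀ : ℝ, 1 ≤ τ₀ ∧ ∀ τ ≥ τ₀, A * Real.log (2 + 2 * τ) ≤ τ := by
  have h1 : Tendsto (fun τ : ℝ => 2 + 2 * τ) atTop atTop :=
    tendsto_atTop_add_const_left _ _ (tendsto_id.const_mul_atTop (by norm_num))
  have h2 := (Real.isLittleO_log_id_atTop.comp_tendsto h1)
  have h3 : (0:ℝ) < 1 / (4 * (|A| + 1)) := by positivity
  have h4 := h2.bound h3
  obtain ⟨τ₁, hτ₁⟩ := eventually_atTop.1 h4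
  refine ⟨max 1 τ₁, le_max_left _ _, fun τ hτ => ?_⟩
  have hτ1 : 1 ≤ τ := (le_max_left _ _).trans hτ
  have h5 := hτ₁ τ ((le_max_right _ _).trans hτ)
  simp only [Function.comp_apply, id_eq, Real.norm_eq_abs] at h5
  have h6 : |2 + 2 * τ| ≤ 4 * τ := by
    rw [abs_of_nonneg (by linarith)]
    linarith
  have hA : 0 < |A| + 1 := by positivity
  calc A * Real.log (2 + 2 * τ) ≤ |A * Real.log (2 + 2 * τ)| := le_abs_self _
    _ = |A| * |Real.log (2 + 2 * τ)| := abs_mul _ _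
    _ ≤ |A| * (1 / (4 * (|A| + 1)) * (4 * τ)) :=
        mul_le_mul_of_nonneg_left (h5.trans (mul_le_mul_of_nonneg_left h6 h3.le)) (abs_nonneg _)
    _ = (|A| / (|A| + 1)) * τ := by field_simp
    _ ≤ 1 * τ := by
        refine mul_le_mul_of_nonneg_right ?_ (by linarith)
        rw [div_le_one hA]
        linarith
    _ = τ := one_mul _

/-- the error terms -/
theorem err_bound {w₀ w τ δ Λ C₀ : ℝ} {l : ℂ} (hτ1 : 1 ≤ τ) (hw : |w - w₀| ≤ 1 / 4) (hδ : 0 < δ)
    (hΛ : 1 ≤ Λ) (hC : 0 < C₀) (hthr : Λ ^ 2 * C₀ * Real.log (2 + 2 * τ) ≤ τ)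
    (hl1 : τ ≤ l.im) (hl2 : l.im ≤ (1 + 1 / Λ ^ 2) * τ) (hl3 : |l.re| ≤ C₀ * Real.log (2 + l.im)) :
    4 * (1 / ‖l‖ + 1 / τ) * ((2 + 3 * |w|) / (δ / 2)) +
      ‖l - Complex.I * τ‖ * (δ / 2) * (4 * Λ / (τ * δ)) ^ 2 * (3 + |w₀|) ≤
      (98 + 64 * |w₀|) / (τ * δ) := by
  have hτ0 : 0 < τ := by linarith
  have hΛ0 : 0 < Λ := by linarith
  have hln : τ ≤ ‖l‖ := by
    refine hl1.trans ((le_abs_self _).trans (Complex.abs_im_le_norm l))
  have hw' : |w| ≤ |w₀| + 1 / 4 := by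
    have h1 := abs_add_le (w - w₀) w₀
    rw [sub_add_cancel] at h1
    linarith
  have h1 : 1 / ‖l‖ + 1 / τ ≤ 2 / τ := by
    have h2 : 1 / ‖l‖ ≤ 1 / τ := one_div_le_one_div_of_le hτ0 hln
    have h3 : 2 / τ = 1 / τ + 1 / τ := by ring
    rw [h3]
    linarith
  have h4 : 4 * (1 / ‖l‖ + 1 / τ) * ((2 + 3 * |w|) / (δ / 2)) ≤
      4 * (2 / τ) * ((3 + 3 * |w₀|) / (δ / 2)) := by
    refine mul_le_mul (by linarith) ?_ (by positivity) (by positivity)
    exact div_le_div_of_nonneg_right (by linarith) (by positivity)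
  have h5 : ‖l - Complex.I * τ‖ ≤ C₀ * Real.log (2 + 2 * τ) + τ / Λ ^ 2 := by
    refine (Complex.norm_le_abs_re_add_abs_im _).trans ?_
    have h6 : (l - Complex.I * τ).re = l.re := by simp
    have h7 : (l - Complex.I * τ).im = l.im - τ := by simp
    rw [h6, h7]
    have hΛ2 : 1 / Λ ^ 2 ≤ 1 := by
      rw [div_le_one (by positivity)]
      exact one_le_pow₀ hΛ
    have h8 : l.im ≤ 2 * τ := by
      refine hl2.trans ?_
      exact mul_le_mul_of_nonneg_right (by linarith) hτ0.le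
    refine add_le_add (hl3.trans ?_) ?_
    · refine mul_le_mul_of_nonneg_left (Real.log_le_log (by linarith) (by linarith)) hC.le
    · rw [abs_of_nonneg (by linarith)]
      have : (1 + 1 / Λ ^ 2) * τ = τ + τ / Λ ^ 2 := by ring
      linarith
  have h9 : ‖l - Complex.I * τ‖ * Λ ^ 2 ≤ 2 * τ := by
    have h10 := mul_le_mul_of_nonneg_right h5 (sq_nonneg Λ)
    have h11 : (C₀ * Real.log (2 + 2 * τ) + τ / Λ ^ 2) * Λ ^ 2 =
        Λ ^ 2 * C₀ * Real.log (2 + 2 * τ) + τ := by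
      field_simp
    rw [h11] at h10
    linarith
  have h12 : ‖l - Complex.I * τ‖ * (δ / 2) * (4 * Λ / (τ * δ)) ^ 2 * (3 + |w₀|) =
      (‖l - Complex.I * τ‖ * Λ ^ 2) * (8 * (3 + |w₀|) / (τ ^ 2 * δ)) := by
    field_simp
    ring
  rw [h12]
  have h13 : (‖l - Complex.I * τ‖ * Λ ^ 2) * (8 * (3 + |w₀|) / (τ ^ 2 * δ)) ≤
      (2 * τ) * (8 * (3 + |w₀|) / (τ ^ 2 * δ)) :=
    mul_le_mul_of_nonneg_right h9 (by positivity)
  refine (add_le_add h4 h13).trans (le_of_eq_of_le ?_ (div_le_div_of_nonneg_right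
    (show 96 + 64 * |w₀| ≤ 98 + 64 * |w₀| by linarith) (by positivity : 0 ≤ τ * δ)))
  field_simp
  ring

theorem win (hP : T_PIECE) : T_WIN := by
  intro w₀
  refine ⟨200 + 128 * |w₀|, by positivity, ?_⟩
  intro S C₀ Λ hC₀ hΛ
  obtain ⟨τ₀, hτ₀, hthr⟩ := exists_thr (Λ ^ 2 * C₀)
  refine ⟨τ₀, hτ₀, ?_⟩
  intro τ w δ hτ hw hδ hδ4 hμT hμB l hl1 hl2 hl3
  have hτ1 : 1 ≤ τ := hτ₀.trans hτ
  have hτ0 : 0 < τ := by linarith
  have hΛ0 : 0 < Λ := by linarith
  have hln : τ ≤ ‖l‖ := hl1.trans ((le_abs_self _).trans (Complex.abs_im_le_norm l))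
  have hlp : 0 < ‖l‖ := by linarith
  have hl0 : l ≠ 0 := norm_pos_iff.1 hlp
  have hV : 0 ≤ 4 * Λ / (τ * δ) := by positivity
  have herr := err_bound hτ1 hw hδ hΛ hC₀ (hthr τ hτ) hl1 hl2 hl3
  obtain ⟨hTle, xT, hxT, hTeq⟩ := hT_spec S w
  obtain ⟨hBle, xB, hxB, hBeq⟩ := gB_spec S w
  set H := S.hT w with hH
  set G := S.gB w with hG
  -- the functions
  have hψ := convex_top S H w
  have hχ := convex_bot S G w
  have hψc : ContinuousOn (fun x => H - S.T x - w * x) (Icc S.a S.b) :=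
    (continuousOn_const.sub S.contT).sub (continuousOn_const.mul continuousOn_id)
  have hχc : ContinuousOn (fun x => S.B x + w * x - G) (Icc S.a S.b) :=
    (S.contB.add (continuousOn_const.mul continuousOn_id)).sub continuousOn_const
  have hψb : ∀ x ∈ Icc S.a S.b, 0 ≤ H - S.T x - w * x ∧ H - S.T x - w * x ≤ H - G := by
    intro x hx
    have h1 := hTle x hx
    have h2 := hBle x hx
    have h3 := S.le x hx
    constructor <;> linarith
  have hχb : ∀ x ∈ Icc S.a S.b, 0 ≤ S.B x + w * x - G ∧ S.B x + w * x - G ≤ H - G := by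
    intro x hx
    have h1 := hTle x hx
    have h2 := hBle x hx
    have h3 := S.le x hx
    constructor <;> linarith
  have hrdT : ∀ x ∈ Ioo S.a S.b, rd (fun x => H - S.T x - w * x) x = S.sT x - w := fun x hx => by
    rw [rd_top hψ hx]
    rfl
  have hrdB : ∀ x ∈ Ioo S.a S.b, rd (fun x => S.B x + w * x - G) x = w - S.sB x := fun x hx => by
    rw [rd_bot hχ hx]
    unfold Strip.sB
    ring
  have hvT : volume {x | x ∈ Ioo S.a S.b ∧ |rd (fun x => H - S.T x - w * x) x| < δ / 2} ≤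
      ENNReal.ofReal (4 * Λ / (τ * δ)) :=
    vol_le (fun x hx => by rw [hrdT x hx]) (aem_of_mono (sT_mono S)) hV hμT
  have hvB : volume {x | x ∈ Ioo S.a S.b ∧ |rd (fun x => S.B x + w * x - G) x| < δ / 2} ≤
      ENNReal.ofReal (4 * Λ / (τ * δ)) :=
    vol_le (fun x hx => by rw [hrdB x hx, abs_sub_comm])
      (aemeasurable_restrict_of_antitoneOn measurableSet_Ioo (sB_anti S)) hV hμB
  have hw2 : |(-w) - (-w₀)| ≤ 1 / 4 := by
    have : (-w) - (-w₀) = -(w - w₀) := by ring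
    rw [this, abs_neg]
    exact hw
  -- densities
  have halT : ∀ x ∈ Ioo S.a S.b,
      Real.sqrt (1 + (rd (fun x => H - S.T x - w * x) x + w) ^ 2) = al S.T x := by
    intro x hx
    rw [rd_top hψ hx]
    unfold al
    congr 1
    ring
  have halB : ∀ x ∈ Ioo S.a S.b,
      Real.sqrt (1 + (rd (fun x => S.B x + w * x - G) x + -w) ^ 2) = al S.B x := by
    intro x hx
    rw [rd_bot hχ hx]
    unfold al
    congr 1
    ring
  -- the local sets
  have hsetT : {x | x ∈ Ioo S.a S.b ∧ |rd (fun x => H - S.T x - w * x) x + w - w₀| < 1} =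
      {x | x ∈ Ioo S.a S.b ∧ |S.sT x - w₀| < 1} := by
    ext x
    constructor
    · rintro ⟨hx, h⟩
      rw [hrdT x hx] at h
      refine ⟨hx, ?_⟩
      rwa [show S.sT x - w + w - w₀ = S.sT x - w₀ by ring] at h
    · rintro ⟨hx, h⟩
      refine ⟨hx, ?_⟩
      rwa [hrdT x hx, show S.sT x - w + w - w₀ = S.sT x - w₀ by ring]
  have hsetB : {x | x ∈ Ioo S.a S.b ∧ |rd (fun x => S.B x + w * x - G) x + -w - -w₀| < 1} =
      {x | x ∈ Ioo S.a S.b ∧ |S.sB x - w₀| < 1} := by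
    ext x
    constructor
    · rintro ⟨hx, h⟩
      rw [hrdB x hx] at h
      refine ⟨hx, ?_⟩
      rwa [show w - S.sB x + -w - -w₀ = -(S.sB x - w₀) by ring, abs_neg] at h
    · rintro ⟨hx, h⟩
      refine ⟨hx, ?_⟩
      rwa [hrdB x hx, show w - S.sB x + -w - -w₀ = -(S.sB x - w₀) by ring, abs_neg]
  have hmT : MeasurableSet {x | x ∈ Ioo S.a S.b ∧ |S.sT x - w₀| < 1} := by
    have hoc : OrdConnected {x | x ∈ Ioo S.a S.b ∧ |S.sT x - w₀| < 1} := by
      refine ⟨fun x hx y hy z hz => ?_⟩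
      have hz1 : z ∈ Ioo S.a S.b := ⟨hx.1.1.trans_le hz.1, hz.2.trans_lt hy.1.2⟩
      refine ⟨hz1, ?_⟩
      have h1 := sT_mono S hx.1 hz1 hz.1
      have h2 := sT_mono S hz1 hy.1 hz.2
      have h3 := abs_lt.1 hx.2
      have h4 := abs_lt.1 hy.2
      rw [abs_lt]
      constructor <;> linarith
    exact hoc.measurableSet
  have hmB : MeasurableSet {x | x ∈ Ioo S.a S.b ∧ |S.sB x - w₀| < 1} := by
    have hoc : OrdConnected {x | x ∈ Ioo S.a S.b ∧ |S.sB x - w₀| < 1} := by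
      refine ⟨fun x hx y hy z hz => ?_⟩
      have hz1 : z ∈ Ioo S.a S.b := ⟨hx.1.1.trans_le hz.1, hz.2.trans_lt hy.1.2⟩
      refine ⟨hz1, ?_⟩
      have h1 := sB_anti S hx.1 hz1 hz.1
      have h2 := sB_anti S hz1 hy.1 hz.2
      have h3 := abs_lt.1 hx.2
      have h4 := abs_lt.1 hy.2
      rw [abs_lt]
      constructor <;> linarith
    exact hoc.measurableSet
  have hside : ∀ x ∈ Icc S.a S.b, S.B x ≤ S.T x := S.le
  have hamem : S.a ∈ Icc S.a S.b := ⟨le_rfl, S.hab.le⟩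
  have hbmem : S.b ∈ Icc S.a S.b := ⟨S.hab.le, le_rfl⟩
  have hsum : 2 * ((98 + 64 * |w₀|) / (τ * δ)) + (2 / ‖l‖ + 2 / ‖l‖) ≤
      (200 + 128 * |w₀|) / (τ * δ) := by
    have h1 : 2 / ‖l‖ ≤ 2 / τ := div_le_div_of_nonneg_left (by norm_num) hτ0 hln
    have h2 : 2 / τ ≤ 1 / 2 / (τ * δ) := by
      rw [div_le_div_iff₀ hτ0 (by positivity)]
      nlinarith
    have h3 : 2 * ((98 + 64 * |w₀|) / (τ * δ)) + (1 / 2 / (τ * δ) + 1 / 2 / (τ * δ)) =
        (197 + 128 * |w₀|) / (τ * δ) := by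
      field_simp
      ring
    have h4 : (197 + 128 * |w₀|) / (τ * δ) ≤ (200 + 128 * |w₀|) / (τ * δ) :=
      div_le_div_of_nonneg_right (by linarith) (by positivity)
    linarith
  constructor
  · intro hre
    have p1 := (hP S.a S.b (δ / 2) w w₀ (4 * Λ / (τ * δ)) τ (H - G)
      (fun x => H - S.T x - w * x) l S.hab (by linarith) (by linarith) hw hψ hψc hψb
      ⟨xT, hxT, by linarith⟩ hV hvT hre hl0 hτ0.ne').1
    have p2 := (hP S.a S.b (δ / 2) (-w) (-w₀) (4 * Λ / (τ * δ)) τ (H - G)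
      (fun x => S.B x + w * x - G) l S.hab (by linarith) (by linarith) hw2 hχ hχc hχb
      ⟨xB, hxB, by linarith⟩ hV hvB hre hl0 hτ0.ne').2
    rw [abs_neg, abs_neg] at p2
    rw [abs_of_pos hτ0] at p1 p2
    have p1' := p1.trans herr
    have p2' := p2.trans herr
    -- rewrite the four pieces
    have q1 : Complex.exp (-(l * (H : ℂ))) *
        (∫ x in S.a..S.b, Complex.exp (l * (S.T x : ℂ) + l * w * (x : ℂ)) * (al S.T x : ℂ)) =
        ∫ x in S.a..S.b, Complex.exp (-(l * ((H - S.T x - w * x : ℝ) : ℂ))) *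
          (Real.sqrt (1 + (rd (fun x => H - S.T x - w * x) x + w) ^ 2) : ℂ) := by
      rw [← intervalIntegral.integral_const_mul]
      refine intervalIntegral.integral_congr_ae (ae_Ioo S.hab.le fun x hx => ?_)
      rw [halT x hx, ← mul_assoc, ← Complex.exp_add]
      congr 2
      push_cast
      ring
    have q2 : Complex.exp (-(l * (H : ℂ))) *
        (∫ x in S.a..S.b, Complex.exp (l * (S.B x : ℂ) + l * w * (x : ℂ)) * (al S.B x : ℂ)) =
        ∫ x in S.a..S.b, Complex.exp (-(l * (((H - G : ℝ) : ℂ) - ((S.B x + w * x - G : ℝ) : ℂ)))) *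
          (Real.sqrt (1 + (rd (fun x => S.B x + w * x - G) x + -w) ^ 2) : ℂ) := by
      rw [← intervalIntegral.integral_const_mul]
      refine intervalIntegral.integral_congr_ae (ae_Ioo S.hab.le fun x hx => ?_)
      rw [halB x hx, ← mul_assoc, ← Complex.exp_add]
      congr 2
      push_cast
      ring
    have q3 : ∀ c : ℝ, Complex.exp (-(l * (H : ℂ))) *
        (∫ y in S.B c..S.T c, Complex.exp (l * (y : ℂ) + l * w * (c : ℂ))) =
        ∫ y in S.B c..S.T c, Complex.exp (l * (y : ℂ) + l * ((w * c - H : ℝ) : ℂ)) := by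
      intro c
      rw [← intervalIntegral.integral_const_mul]
      refine intervalIntegral.integral_congr fun y _ => ?_
      rw [← Complex.exp_add]
      congr 1
      push_cast
      ring
    have q4 : ∀ c ∈ Icc S.a S.b, ‖∫ y in S.B c..S.T c,
        Complex.exp (l * (y : ℂ) + l * ((w * c - H : ℝ) : ℂ))‖ ≤ 2 / ‖l‖ := by
      intro c hc
      refine side (S.le c hc) l _ hl0 fun y hy => ?_
      have h1 : (l * (y : ℂ) + l * ((w * c - H : ℝ) : ℂ)).re = l.re * (y + w * c - H) := by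
        simp [Complex.add_re, Complex.mul_re]
        ring
      rw [h1]
      have h2 := hTle c hc
      exact mul_nonpos_of_nonneg_of_nonpos hre (by linarith [hy.2])
    have q5 : ∫ x in {x | x ∈ Ioo S.a S.b ∧ |rd (fun x => H - S.T x - w * x) x + w - w₀| < 1},
        Complex.exp (-(Complex.I * τ * ((H - S.T x - w * x : ℝ) : ℂ))) *
          (Real.sqrt (1 + (rd (fun x => H - S.T x - w * x) x + w) ^ 2) : ℂ) = S.aT w₀ τ w := by
      rw [hsetT]
      unfold Strip.aT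
      refine setIntegral_congr_fun hmT fun x hx => ?_
      simp only [halT x hx.1]
      rfl
    have q6 : ∫ x in {x | x ∈ Ioo S.a S.b ∧ |rd (fun x => S.B x + w * x - G) x + -w - -w₀| < 1},
        Complex.exp (Complex.I * τ * ((S.B x + w * x - G : ℝ) : ℂ)) *
          (Real.sqrt (1 + (rd (fun x => S.B x + w * x - G) x + -w) ^ 2) : ℂ) = S.bB w₀ τ w := by
      rw [hsetB]
      unfold Strip.bB
      refine setIntegral_congr_fun hmB fun x hx => ?_
      simp only [halB x hx.1]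
      rfl
    rw [q5] at p1'
    rw [q6] at p2'
    unfold Strip.F
    simp only
    have hfin : Complex.exp (-(l * (H : ℂ))) *
        ((∫ x in S.a..S.b, Complex.exp (l * (S.T x : ℂ) + l * w * (x : ℂ)) * (al S.T x : ℂ)) +
        (∫ x in S.a..S.b, Complex.exp (l * (S.B x : ℂ) + l * w * (x : ℂ)) * (al S.B x : ℂ)) +
        (∫ y in S.B S.a..S.T S.a, Complex.exp (l * (y : ℂ) + l * w * (S.a : ℂ))) +
        (∫ y in S.B S.b..S.T S.b, Complex.exp (l * (y : ℂ) + l * w * (S.b : ℂ)))) -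
        (S.aT w₀ τ w + Complex.exp (-(l * ((H - G : ℝ) : ℂ))) * S.bB w₀ τ w) =
        ((∫ x in S.a..S.b, Complex.exp (-(l * ((H - S.T x - w * x : ℝ) : ℂ))) *
          (Real.sqrt (1 + (rd (fun x => H - S.T x - w * x) x + w) ^ 2) : ℂ)) - S.aT w₀ τ w) +
        ((∫ x in S.a..S.b, Complex.exp (-(l * (((H - G : ℝ) : ℂ) - ((S.B x + w * x - G : ℝ) : ℂ)))) *
          (Real.sqrt (1 + (rd (fun x => S.B x + w * x - G) x + -w) ^ 2) : ℂ)) -
          Complex.exp (-(l * ((H - G : ℝ) : ℂ))) * S.bB w₀ τ w) +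
        ((∫ y in S.B S.a..S.T S.a, Complex.exp (l * (y : ℂ) + l * ((w * S.a - H : ℝ) : ℂ))) +
        (∫ y in S.B S.b..S.T S.b, Complex.exp (l * (y : ℂ) + l * ((w * S.b - H : ℝ) : ℂ)))) := by
      rw [mul_add, mul_add, mul_add, q1, q2, q3, q3]
      ring
    rw [hfin]
    refine (norm_add_le _ _).trans ((add_le_add (norm_add_le _ _) (norm_add_le _ _)).trans ?_)
    refine le_trans ?_ hsum
    have r1 := q4 S.a hamem
    have r2 := q4 S.b hbmem
    have := add_le_add (add_le_add p1' p2') (add_le_add r1 r2)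
    linarith
  · intro hre
    have hre' : 0 ≤ (-l).re := by rw [Complex.neg_re]; linarith
    have hl0' : -l ≠ 0 := neg_ne_zero.2 hl0
    have hτn : -τ ≠ 0 := neg_ne_zero.2 hτ0.ne'
    have p1 := (hP S.a S.b (δ / 2) w w₀ (4 * Λ / (τ * δ)) (-τ) (H - G)
      (fun x => H - S.T x - w * x) (-l) S.hab (by linarith) (by linarith) hw hψ hψc hψb
      ⟨xT, hxT, by linarith⟩ hV hvT hre' hl0' hτn).2
    have p2 := (hP S.a S.b (δ / 2) (-w) (-w₀) (4 * Λ / (τ * δ)) (-τ) (H - G)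
      (fun x => S.B x + w * x - G) (-l) S.hab (by linarith) (by linarith) hw2 hχ hχc hχb
      ⟨xB, hxB, by linarith⟩ hV hvB hre' hl0' hτn).1
    rw [abs_neg, abs_neg w₀] at p2
    rw [abs_neg, abs_of_pos hτ0] at p1
    rw [abs_neg, abs_of_pos hτ0] at p2
    have hnn : ‖-l - Complex.I * ((-τ : ℝ) : ℂ)‖ = ‖l - Complex.I * τ‖ := by
      rw [← norm_neg]
      congr 1
      push_cast
      ring
    rw [norm_neg, hnn] at p1 p2
    have p1' := p1.trans herr
    have p2' := p2.trans herr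
    have q1 : Complex.exp (-(l * (G : ℂ))) *
        (∫ x in S.a..S.b, Complex.exp (l * (S.T x : ℂ) + l * w * (x : ℂ)) * (al S.T x : ℂ)) =
        ∫ x in S.a..S.b, Complex.exp (-(-l * (((H - G : ℝ) : ℂ) - ((H - S.T x - w * x : ℝ) : ℂ)))) *
          (Real.sqrt (1 + (rd (fun x => H - S.T x - w * x) x + w) ^ 2) : ℂ) := by
      rw [← intervalIntegral.integral_const_mul]
      refine intervalIntegral.integral_congr_ae (ae_Ioo S.hab.le fun x hx => ?_)
      rw [halT x hx, ← mul_assoc, ← Complex.exp_add]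
      congr 2
      push_cast
      ring
    have q2 : Complex.exp (-(l * (G : ℂ))) *
        (∫ x in S.a..S.b, Complex.exp (l * (S.B x : ℂ) + l * w * (x : ℂ)) * (al S.B x : ℂ)) =
        ∫ x in S.a..S.b, Complex.exp (-(-l * ((S.B x + w * x - G : ℝ) : ℂ))) *
          (Real.sqrt (1 + (rd (fun x => S.B x + w * x - G) x + -w) ^ 2) : ℂ) := by
      rw [← intervalIntegral.integral_const_mul]
      refine intervalIntegral.integral_congr_ae (ae_Ioo S.hab.le fun x hx => ?_)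
      rw [halB x hx, ← mul_assoc, ← Complex.exp_add]
      congr 2
      push_cast
      ring
    have q3 : ∀ c : ℝ, Complex.exp (-(l * (G : ℂ))) *
        (∫ y in S.B c..S.T c, Complex.exp (l * (y : ℂ) + l * w * (c : ℂ))) =
        ∫ y in S.B c..S.T c, Complex.exp (l * (y : ℂ) + l * ((w * c - G : ℝ) : ℂ)) := by
      intro c
      rw [← intervalIntegral.integral_const_mul]
      refine intervalIntegral.integral_congr fun y _ => ?_
      rw [← Complex.exp_add]
      congr 1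
      push_cast
      ring
    have q4 : ∀ c ∈ Icc S.a S.b, ‖∫ y in S.B c..S.T c,
        Complex.exp (l * (y : ℂ) + l * ((w * c - G : ℝ) : ℂ))‖ ≤ 2 / ‖l‖ := by
      intro c hc
      refine side (S.le c hc) l _ hl0 fun y hy => ?_
      have h1 : (l * (y : ℂ) + l * ((w * c - G : ℝ) : ℂ)).re = l.re * (y + w * c - G) := by
        simp [Complex.add_re, Complex.mul_re]
        ring
      rw [h1]
      have h2 := hBle c hc
      exact mul_nonpos_of_nonpos_of_nonneg hre (by linarith [hy.1])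
    have q5 : ∫ x in {x | x ∈ Ioo S.a S.b ∧ |rd (fun x => H - S.T x - w * x) x + w - w₀| < 1},
        Complex.exp (Complex.I * ((-τ : ℝ) : ℂ) * ((H - S.T x - w * x : ℝ) : ℂ)) *
          (Real.sqrt (1 + (rd (fun x => H - S.T x - w * x) x + w) ^ 2) : ℂ) = S.aT w₀ τ w := by
      rw [hsetT]
      unfold Strip.aT
      refine setIntegral_congr_fun hmT fun x hx => ?_
      simp only [halT x hx.1]
      congr 2
      rw [← hH]
      push_cast
      ring
    have q6 : ∫ x in {x | x ∈ Ioo S.a S.b ∧ |rd (fun x => S.B x + w * x - G) x + -w - -w₀| < 1},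
        Complex.exp (-(Complex.I * ((-τ : ℝ) : ℂ) * ((S.B x + w * x - G : ℝ) : ℂ))) *
          (Real.sqrt (1 + (rd (fun x => S.B x + w * x - G) x + -w) ^ 2) : ℂ) = S.bB w₀ τ w := by
      rw [hsetB]
      unfold Strip.bB
      refine setIntegral_congr_fun hmB fun x hx => ?_
      simp only [halB x hx.1]
      congr 2
      rw [← hG]
      push_cast
      ring
    rw [q5] at p1'
    rw [q6] at p2'
    unfold Strip.F
    simp only
    have hfin : Complex.exp (-(l * (G : ℂ))) *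
        ((∫ x in S.a..S.b, Complex.exp (l * (S.T x : ℂ) + l * w * (x : ℂ)) * (al S.T x : ℂ)) +
        (∫ x in S.a..S.b, Complex.exp (l * (S.B x : ℂ) + l * w * (x : ℂ)) * (al S.B x : ℂ)) +
        (∫ y in S.B S.a..S.T S.a, Complex.exp (l * (y : ℂ) + l * w * (S.a : ℂ))) +
        (∫ y in S.B S.b..S.T S.b, Complex.exp (l * (y : ℂ) + l * w * (S.b : ℂ)))) -
        (S.bB w₀ τ w + Complex.exp (l * ((H - G : ℝ) : ℂ)) * S.aT w₀ τ w) =
        ((∫ x in S.a..S.b, Complex.exp (-(-l * ((S.B x + w * x - G : ℝ) : ℂ))) *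
          (Real.sqrt (1 + (rd (fun x => S.B x + w * x - G) x + -w) ^ 2) : ℂ)) - S.bB w₀ τ w) +
        ((∫ x in S.a..S.b, Complex.exp (-(-l * (((H - G : ℝ) : ℂ) - ((H - S.T x - w * x : ℝ) : ℂ)))) *
          (Real.sqrt (1 + (rd (fun x => H - S.T x - w * x) x + w) ^ 2) : ℂ)) -
          Complex.exp (-(-l * ((H - G : ℝ) : ℂ))) * S.aT w₀ τ w) +
        ((∫ y in S.B S.a..S.T S.a, Complex.exp (l * (y : ℂ) + l * ((w * S.a - G : ℝ) : ℂ))) +
        (∫ y in S.B S.b..S.T S.b, Complex.exp (l * (y : ℂ) + l * ((w * S.b - G : ℝ) : ℂ)))) := by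
      rw [mul_add, mul_add, mul_add, q1, q2, q3, q3]
      have : -(-l * ((H - G : ℝ) : ℂ)) = l * ((H - G : ℝ) : ℂ) := by ring
      rw [this]
      ring
    rw [hfin]
    refine (norm_add_le _ _).trans ((add_le_add (norm_add_le _ _) (norm_add_le _ _)).trans ?_)
    refine le_trans ?_ hsum
    have r1 := q4 S.a hamem
    have r2 := q4 S.b hbmem
    have := add_le_add (add_le_add p2' p1') (add_le_add r1 r2)
    linarith

end Pool.Agent.H39.BP.WIN
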